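import Pool.Agent.H73.CBD.Stmts

/-! # Row CTN of the board `cbd`: continuity off the origin -/

set_option autoImplicit false

open Set Filter Topology

namespace Pool.CBD

theorem CTN_thm (h1 : ALGStmt) : CTNStmt := by
  have hpos := h1.2.2.2.2.2.2.2.2
  have h0 : Continuous fun z : V => z 0 := continuous_apply 0
  have h1' : Continuous fun z : V => z 1 := continuous_apply 1
  have hN : Continuous N := by
    unfold N
    fun_prop
  have hD : Continuous fun z : V => ‖z 0‖ ^ 4 + ‖z 1‖ ^ 4 := by fun_prop
  constructor
  · unfold tau
    refine ContinuousOn.mul ?_ ?_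
    · exact (((continuous_const.mul h0).mul h1')).continuousOn
    · refine Complex.continuous_ofReal.comp_continuousOn ?_
      exact hN.continuousOn.div hD.continuousOn fun z hz => (hpos z hz).ne'
  · unfold nu
    refine ContinuousOn.mul (ContinuousOn.mul continuousOn_const ?_) ?_
    · refine Complex.continuous_ofReal.comp_continuousOn ?_
      refine ContinuousOn.div ?_ hD.continuousOn fun z hz => (hpos z hz).ne'
      exact ((h0.norm.pow 2).sub (h1'.norm.pow 2)).continuousOn
    · exact ((Complex.continuous_conj.comp h0).mul (Complex.continuous_conj.comp h1')).continuousOn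

end Pool.CBD
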